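import Mathlib
import Pool.Agent.MP_0d7d6c_co.Defs

section

namespace Pool.Agent.MP_0d7d6c_co

open Matrix Finset Filter

/-- Laplacian of a weight matrix. -/
noncomputable def lap {V : Type} [Fintype V] [DecidableEq V] (W : Matrix V V ℝ) : Matrix V V ℝ :=
  diagonal (fun i => ∑ j, W i j) - W

/-- Some weight matrix on `N` vertices, vanishing on a `k`-set, has characteristic function
`x * f x`. -/
def RealKN (k N : ℕ) (f : ℝ → ℝ) : Prop :=
  ∃ (V : Type) (_ : Fintype V) (_ : DecidableEq V) (Z : Finset V) (W : Matrix V V ℝ),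
    Fintype.card V = N ∧ Z.card = k ∧ (∀ i j, W i j = W j i) ∧ (∀ i j, 0 ≤ W i j) ∧
    (∀ i, W i i = 0) ∧ (∀ i ∈ Z, ∀ j ∈ Z, W i j = 0) ∧
    ∀ᶠ x in atTop, (scalar V x - lap W).det = x * f x

section Join

variable {V K : Type} [Fintype V] [DecidableEq V] [Fintype K] [DecidableEq K]

/-- Join of two weight matrices with weights depending only on the second vertex. -/
def join (W : Matrix V V ℝ) (α : K → ℝ) (U : Matrix K K ℝ) : Matrix (V ⊕ K) (V ⊕ K) ℝ :=
  fromBlocks W (of fun _ j => α j) (of fun i _ => α i) U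

lemma row_sum (W : Matrix V V ℝ) (y : ℝ) (i : V) : ∑ j, (scalar V y - lap W) i j = y := by
  simp [lap, sum_sub_distrib, diagonal_apply]

lemma join_eq (W : Matrix V V ℝ) (α : K → ℝ) (U : Matrix K K ℝ) (x : ℝ) :
    scalar (V ⊕ K) x - lap (join W α U) =
      fromBlocks (scalar V (x - ∑ j, α j) - lap W) (of fun _ j => α j) (of fun i _ => α i)
        (scalar K x - diagonal (fun i => Fintype.card V * α i + ∑ j, U i j) + U) := by
  ext (i | i) (j | j)
  · by_cases h : i = j
    · subst h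
      simp [lap, join, Fintype.sum_sum_type]
      ring
    · simp [lap, join, h]
  · simp [lap, join]
  · simp [lap, join]
  · by_cases h : i = j
    · subst h
      simp [lap, join, Fintype.sum_sum_type]
      ring
    · simp [lap, join, h]

lemma det_block (A : Matrix V V ℝ) {y : ℝ} (hy : y ≠ 0) (hA : ∀ i, ∑ j, A i j = y) (α : K → ℝ)
    (Q : Matrix K K ℝ) :
    (fromBlocks A (of fun _ j => α j) (of fun i _ => α i) Q).det =
      A.det * (Q - of fun i j => Fintype.card V * α i * α j / y).det := by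
  have h1 : fromBlocks A (of fun _ j => α j) (of fun i _ => α i) Q =
      fromBlocks A 0 0 1 * fromBlocks 1 (of fun _ j => α j / y) (of fun i _ => α i) Q := by
    rw [fromBlocks_multiply]
    simp only [Matrix.mul_one, Matrix.zero_mul, add_zero, zero_add, Matrix.one_mul]
    congr 1
    ext i j
    simp only [of_apply, mul_apply]
    rw [← sum_mul, hA]
    field_simp
  rw [h1, det_mul, det_fromBlocks_zero₂₁, det_one, mul_one, det_fromBlocks_one₁₁]
  congr 3
  ext i j
  simp only [of_apply, mul_apply, sum_const, card_univ, nsmul_eq_mul]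
  ring

lemma det_join (W : Matrix V V ℝ) (α : K → ℝ) (U : Matrix K K ℝ) {x : ℝ}
    (hx : x - ∑ j, α j ≠ 0) :
    (scalar (V ⊕ K) x - lap (join W α U)).det =
      (scalar V (x - ∑ j, α j) - lap W).det *
        ((scalar K x - diagonal (fun i => Fintype.card V * α i + ∑ j, U i j) + U) -
          of fun i j => Fintype.card V * α i * α j / (x - ∑ j, α j)).det := by
  rw [join_eq, det_block _ hx (row_sum W _)]

end Join

lemma eventually_shift {P : ℝ → Prop} (h : ∀ᶠ x in atTop, P x) (a : ℝ) :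
    ∀ᶠ x in atTop, P (x - a) :=
  (tendsto_atTop_add_const_right atTop (-a) tendsto_id).eventually h

lemma RealKN.congr {k N : ℕ} {f g : ℝ → ℝ} (h : RealKN k N f) (hfg : ∀ x, f x = g x) :
    RealKN k N g := by
  have : f = g := funext hfg
  rwa [← this]

lemma RealKN.cone {k N : ℕ} {f : ℝ → ℝ} (h : RealKN k N f) {a : ℝ} (ha : 0 ≤ a) :
    RealKN k (N + 1) (fun x => f (x - a) * (x - (N + 1) * a)) := by
  obtain ⟨V, _, _, Z, W, hV, hZ, hsymm, hnn, hdiag, hZW, hdet⟩ := h
  refine ⟨V ⊕ Unit, inferInstance, inferInstance, Z.map Function.Embedding.inl,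
    join W (fun _ => a) 0, by simp [hV], by simp [hZ], ?_, ?_, ?_, ?_, ?_⟩
  · rintro (i | i) (j | j)
    · simp [join, hsymm i]
    · simp [join]
    · simp [join]
    · simp [join]
  · rintro (i | i) (j | j) <;> simp [join, hnn, ha]
  · rintro (i | i) <;> simp [join, hdiag]
  · intro i hi j hj
    obtain ⟨i, hi', rfl⟩ := mem_map.1 hi
    obtain ⟨j, hj', rfl⟩ := mem_map.1 hj
    simp [join, hZW i hi' j hj']
  · filter_upwards [eventually_shift hdet a, eventually_gt_atTop a] with x hx hxa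
    have hne : x - a ≠ 0 := by linarith
    have hs : ∑ _j : Unit, a = a := by simp
    rw [det_join _ _ _ (by rw [hs]; exact hne), hs, hx, det_unique, hV]
    simp
    field_simp
    ring

lemma RealKN.step {k N : ℕ} {f : ℝ → ℝ} (h : RealKN k N f) {a b : ℝ} (ha : 0 ≤ a) (hb : 0 ≤ b) :
    RealKN (k + 1) (N + 2)
      (fun x => f (x - a) * (x ^ 2 - ((N + 1) * a + 2 * b) * x + (N + 2) * a * b)) := by
  obtain ⟨V, _, _, Z, W, hV, hZ, hsymm, hnn, hdiag, hZW, hdet⟩ := h
  refine ⟨V ⊕ Fin 2, inferInstance, inferInstance,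
    insert (Sum.inr 0) (Z.map Function.Embedding.inl),
    join W ![0, a] !![0, b; b, 0], by simp [hV], ?_, ?_, ?_, ?_, ?_, ?_⟩
  · rw [card_insert_of_notMem (by simp)]
    simp [hZ]
  · rintro (i | i) (j | j)
    · simp [join, hsymm i]
    · simp [join]
    · simp [join]
    · fin_cases i <;> fin_cases j <;> simp [join]
  · rintro (i | i) (j | j)
    · simp [join, hnn]
    · fin_cases j <;> simp [join, ha]
    · fin_cases i <;> simp [join, ha]
    · fin_cases i <;> fin_cases j <;> simp [join, hb]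
  · rintro (i | i)
    · simp [join, hdiag]
    · fin_cases i <;> simp [join]
  · intro i hi j hj
    rcases mem_insert.1 hi with rfl | hi <;> rcases mem_insert.1 hj with rfl | hj
    · simp [join]
    · obtain ⟨j, hj, rfl⟩ := mem_map.1 hj
      simp [join]
    · obtain ⟨i, hi, rfl⟩ := mem_map.1 hi
      simp [join]
    · obtain ⟨i, hi', rfl⟩ := mem_map.1 hi
      obtain ⟨j, hj', rfl⟩ := mem_map.1 hj
      simp [join, hZW i hi' j hj']
  · filter_upwards [eventually_shift hdet a, eventually_gt_atTop a] with x hx hxa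
    have hne : x - a ≠ 0 := by linarith
    have hs : ∑ j : Fin 2, (![0, a] : Fin 2 → ℝ) j = a := by simp
    rw [det_join _ _ _ (by rw [hs]; exact hne), hs, hx, det_fin_two, hV]
    simp
    field_simp
    ring

lemma realKN_base : RealKN 0 1 (fun _ => 1) := by
  refine ⟨Unit, inferInstance, inferInstance, ∅, 0, by simp, by simp, by simp, by simp, by simp,
    by simp, ?_⟩
  filter_upwards with x
  simp [lap]

lemma realKN_complete {ι : Type} [DecidableEq ι] (n : ℕ) :
    ∀ (S : Finset ι) (l : ι → ℝ), S.card = n → (∀ i ∈ S, 0 ≤ l i) →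
      RealKN 0 (n + 1) (fun x => ∏ i ∈ S, (x - l i)) := by
  induction n with
  | zero =>
    intro S l hS _
    rw [card_eq_zero] at hS
    subst hS
    simpa using realKN_base
  | succ n ih =>
    intro S l hS hl
    obtain ⟨i₀, hi₀, hmin⟩ := exists_min_image S l (card_pos.1 (by omega))
    have hpos : (0 : ℝ) < (n : ℝ) + 2 := by positivity
    set a : ℝ := l i₀ / ((n : ℝ) + 2) with ha
    have ha0 : 0 ≤ a := div_nonneg (hl i₀ hi₀) hpos.le
    have ha1 : a ≤ l i₀ := div_le_self (hl i₀ hi₀) (by linarith [Nat.cast_nonneg (α := ℝ) n])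
    have h1 := ih (S.erase i₀) (fun i => l i - a) (by rw [card_erase_of_mem hi₀, hS]; rfl)
      (fun i hi => by have := hmin i (mem_of_mem_erase hi); linarith)
    refine (h1.cone ha0).congr fun x => ?_
    rw [← mul_prod_erase S _ hi₀, mul_comm]
    congr 1
    · rw [ha]
      push_cast
      field_simp
      ring
    · apply prod_congr rfl
      intro i _
      ring

lemma exists_ab {h x y : ℝ} (hh : 0 ≤ h) (hx : 0 ≤ x) (hy : 6 * x ≤ y) :
    ∃ a b : ℝ, 0 ≤ a ∧ 0 ≤ b ∧ (h + 1) * a + 2 * b = x + y ∧ (h + 2) * a * b = x * y ∧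
      (h + 1) * a ≤ 4 * x := by
  have h2 : 0 < h + 2 := by linarith
  have h1 : 0 < h + 1 := by linarith
  set θ : ℝ := 2 * (h + 1) / (h + 2) with hθ
  have hθ0 : 0 ≤ θ := by positivity
  have hθ2 : θ ≤ 2 := by
    rw [hθ, div_le_iff₀ h2]; linarith
  have hxy : 0 ≤ x * y := mul_nonneg hx (by linarith)
  have hD : 0 ≤ (x + y) ^ 2 - 4 * θ * (x * y) := by nlinarith
  set D := √((x + y) ^ 2 - 4 * θ * (x * y)) with hDdef
  have hD0 : 0 ≤ D := Real.sqrt_nonneg _
  have hD2 : D ^ 2 = (x + y) ^ 2 - 4 * θ * (x * y) := Real.sq_sqrt hD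
  have hθxy : 0 ≤ θ * (x * y) := mul_nonneg hθ0 hxy
  have hDle : D ≤ x + y := by
    apply le_of_sq_le_sq _ (by linarith) 
    nlinarith
  refine ⟨(x + y - D) / 2 / (h + 1), (x + y + D) / 4, by
    apply div_nonneg _ h1.le; linarith, by linarith, ?_, ?_, ?_⟩
  · field_simp
    ring
  · have : (h + 2) * ((x + y - D) / 2 / (h + 1)) * ((x + y + D) / 4) =
        (h + 2) / (8 * (h + 1)) * ((x + y) ^ 2 - D ^ 2) := by
      field_simp
      ring
    rw [this, hD2, hθ]
    field_simp
    ring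
  · have : (h + 1) * ((x + y - D) / 2 / (h + 1)) = (x + y - D) / 2 := by field_simp
    rw [this]
    by_contra hcon
    push Not at hcon
    have h3 : D < y - 7 * x := by linarith
    have h4 : D ^ 2 < (y - 7 * x) ^ 2 := by nlinarith
    nlinarith

lemma realKN_steps {ι : Type} [DecidableEq ι] (k : ℕ) :
    ∀ (n : ℕ) (S : Finset ι) (l : ι → ℝ) (p q : Fin k → ι) (ρ : ℝ), S.card = n + 2 * k →
      Function.Injective p → Function.Injective q → (∀ i j, p i ≠ q j) → (∀ j, p j ∈ S) →
      (∀ j, q j ∈ S) → 0 ≤ ρ → (∀ i ∈ S, k * ρ ≤ l i) → (∀ j, 4 * l (p j) ≤ ρ * (n + 2)) →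
      (∀ j, 6 * l (p j) ≤ l (q j)) →
      RealKN k (n + 2 * k + 1) (fun x => ∏ i ∈ S, (x - l i)) := by
  induction k with
  | zero =>
    intro n S l p q ρ hS _ _ _ _ _ _ hl _ _
    exact realKN_complete n S l hS (fun i hi => by simpa using hl i hi)
  | succ k ih =>
    intro n S l p q ρ hS hp hq hpq hpS hqS hρ hl hsmall hratio
    have hk0 : (0 : ℝ) ≤ k := Nat.cast_nonneg k
    have hn0 : (0 : ℝ) ≤ n := Nat.cast_nonneg n
    have hl0 : ∀ i ∈ S, ρ + k * ρ ≤ l i := by
      intro i hi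
      have := hl i hi
      push_cast at this
      linarith
    have hkρ : 0 ≤ (k : ℝ) * ρ := mul_nonneg hk0 hρ
    obtain ⟨a, b, ha, hb, hsum, hprod, hale⟩ := exists_ab (h := ((n + 2 * k + 1 : ℕ) : ℝ))
      (x := l (p 0)) (y := l (q 0)) (by positivity) (by have := hl0 _ (hpS 0); linarith) (hratio 0)
    have haρ : a ≤ ρ := by
      have h1 := hsmall 0
      have h2 : ((n : ℝ) + 2) * a ≤ (((n + 2 * k + 1 : ℕ) : ℝ) + 1) * a := by
        apply mul_le_mul_of_nonneg_right _ ha
        push_cast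
        linarith
      have h3 : ((n : ℝ) + 2) * a ≤ ((n : ℝ) + 2) * ρ := by linarith
      exact le_of_mul_le_mul_left h3 (by linarith)
    have hq0 : q 0 ∈ S.erase (p 0) := mem_erase.2 ⟨(hpq 0 0).symm, hqS 0⟩
    have h1 := ih n ((S.erase (p 0)).erase (q 0)) (fun i => l i - a) (fun j => p j.succ)
      (fun j => q j.succ) ρ
      (by rw [card_erase_of_mem hq0, card_erase_of_mem (hpS 0), hS]; omega)
      (hp.comp (Fin.succ_injective k)) (hq.comp (Fin.succ_injective k)) (fun i j => hpq _ _)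
      (fun j => mem_erase.2 ⟨hpq _ _, mem_erase.2 ⟨fun h => Fin.succ_ne_zero j (hp h), hpS _⟩⟩)
      (fun j => mem_erase.2 ⟨fun h => Fin.succ_ne_zero j (hq h),
        mem_erase.2 ⟨(hpq _ _).symm, hqS _⟩⟩) hρ
      (fun i hi => by have := hl0 i (mem_of_mem_erase (mem_of_mem_erase hi)); linarith)
      (fun j => by have := hsmall j.succ; linarith)
      (fun j => by have := hratio j.succ; linarith)
    have h2 := h1.step ha hb
    have h3 : n + 2 * (k + 1) + 1 = n + 2 * k + 1 + 2 := by ring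
    rw [h3]
    refine h2.congr fun x => ?_
    rw [← mul_prod_erase S _ (hpS 0), ← mul_prod_erase _ _ hq0, hsum, hprod, ← mul_assoc, mul_comm]
    congr 1
    · ring
    · apply prod_congr rfl
      intro i _
      ring

end Pool.Agent.MP_0d7d6c_co

end

section

namespace Pool.Agent.MP_0d7d6c_co

open Matrix Finset Filter Polynomial

lemma exists_equiv {V : Type} [Fintype V] [DecidableEq V] (Z : Finset V) {N k : ℕ}
    (hV : Fintype.card V = N) (hZ : Z.card = k) :
    ∃ e : V ≃ Fin N, ∀ v, v ∈ Z ↔ (e v : ℕ) < k := by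
  have hk : k ≤ N := by rw [← hZ, ← hV]; exact card_le_univ Z
  have h1 : Fintype.card {v // v ∈ Z} = Fintype.card {i : Fin N // (i : ℕ) < k} := by
    rw [Fintype.card_coe, hZ, Fintype.card_subtype]
    simp [Fin.card_filter_val_lt, hk]
  have h2 : Fintype.card {v // ¬ v ∈ Z} = Fintype.card {i : Fin N // ¬ (i : ℕ) < k} := by
    rw [Fintype.card_subtype_compl, Fintype.card_subtype_compl, h1, hV, Fintype.card_fin]
  let e1 := Fintype.equivOfCardEq h1
  let e2 := Fintype.equivOfCardEq h2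
  refine ⟨(Equiv.sumCompl (fun v => v ∈ Z)).symm.trans
    ((e1.sumCongr e2).trans (Equiv.sumCompl (fun i : Fin N => (i : ℕ) < k))), fun v => ?_⟩
  by_cases hv : v ∈ Z
  · simp only [hv, Equiv.trans_apply, true_iff]
    rw [Equiv.sumCompl_symm_apply_of_pos (p := fun v => v ∈ Z) hv]
    exact (e1 ⟨v, hv⟩).2
  · simp only [hv, Equiv.trans_apply, false_iff]
    rw [Equiv.sumCompl_symm_apply_of_neg (p := fun v => v ∈ Z) hv]
    exact (e2 ⟨v, hv⟩).2

lemma realizable_of_realKN {N k : ℕ} (G : SimpleGraph (Fin N))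
    (hG : ∀ i j : Fin N, i ≠ j → (k ≤ (i : ℕ) ∨ k ≤ (j : ℕ)) → G.Adj i j) (x : Fin (N - 1) → ℝ)
    (h : RealKN k N (fun t => ∏ i, (t - x i))) : Realizable G x := by
  obtain ⟨V, _, _, Z, W, hV, hZ, hsymm, hnn, hdiag, hZW, hdet⟩ := h
  obtain ⟨e, he⟩ := exists_equiv Z hV hZ
  let w : Sym2 (Fin N) → ℝ := Sym2.lift ⟨fun i j => W (e.symm i) (e.symm j), fun i j => hsymm _ _⟩
  have hW : weightMatrix G w = W.submatrix e.symm e.symm := by
    ext i j
    simp only [weightMatrix, of_apply, submatrix_apply, w, Sym2.lift_mk]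
    split_ifs with hadj
    · rfl
    · by_cases hij : i = j
      · subst hij
        exact (hdiag _).symm
      · have := mt (hG i j hij) hadj
        push Not at this
        exact (hZW _ ((he _).2 (by simpa using this.1)) _ ((he _).2 (by simpa using this.2))).symm
  refine ⟨w, ?_, ?_⟩
  · intro s
    induction s using Sym2.ind with
    | _ i j => exact hnn _ _
  · have hL : ∀ t : ℝ, scalar (Fin N) t - weightedLaplacian G w =
        (scalar V t - lap W).submatrix e.symm e.symm := by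
      intro t
      ext i j
      rw [weightedLaplacian, hW]
      have hs : ∑ j, W (e.symm i) (e.symm j) = ∑ j, W (e.symm i) j :=
        e.symm.sum_comp (fun j => W (e.symm i) j)
      by_cases hij : i = j
      · subst hij
        simp [lap, hs]
      · have : e.symm i ≠ e.symm j := fun h => hij (e.symm.injective h)
        simp [lap, hij, this]
    have hc : (weightedLaplacian G w).charpoly =
        ((0 ::ₘ Finset.univ.val.map x).map fun a => X - C a).prod := by
      apply eq_of_infinite_eval_eq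
      obtain ⟨b, hb⟩ := eventually_atTop.1 hdet
      apply (Set.Ici_infinite b).mono
      intro t ht
      simp only [Set.mem_ofPred_eq]
      rw [Matrix.eval_charpoly, hL, det_submatrix_equiv_self, hb t ht]
      simp only [Multiset.map_cons, Multiset.prod_cons, Multiset.map_map, eval_mul]
      rw [← Finset.prod_eq_multiset_prod, eval_prod]
      simp
    rw [hc, roots_multiset_prod_X_sub_C]

lemma iter_adj {N : ℕ} (G : SimpleGraph (Fin N)) (n : ℕ) :
    ∀ i j : Fin (N + n), i ≠ j → (N ≤ (i : ℕ) ∨ N ≤ (j : ℕ)) → (iterSuspension G n).Adj i j := by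
  induction n with
  | zero =>
    intro i j _ h
    have := i.isLt
    have := j.isLt
    omega
  | succ n ih =>
    intro i j hij h
    change (suspension (iterSuspension G n)).Adj i j
    unfold suspension
    rw [SimpleGraph.fromRel_adj]
    refine ⟨hij, ?_⟩
    rcases Fin.eq_castSucc_or_eq_last (n := N + n) i with ⟨a, rfl⟩ | rfl
    · rcases Fin.eq_castSucc_or_eq_last (n := N + n) j with ⟨b, rfl⟩ | rfl
      · left
        right
        exact ⟨a, b, ih a b (fun hab => hij (by rw [hab])) h, rfl, rfl⟩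
      · right
        left
        rfl
    · left
      left
      rfl

end Pool.Agent.MP_0d7d6c_co

end

section

namespace Pool.Agent.MP_0d7d6c_co

open MeasureTheory Finset Set
open scoped ENNReal Pointwise NNReal

/-- Forget the last coordinate. -/
noncomputable def projL (d : ℕ) : EuclideanSpace ℝ (Fin (d + 1)) →ₗ[ℝ] (Fin d → ℝ) where
  toFun x := fun i => x i.castSucc
  map_add' x y := by ext i; simp
  map_smul' c x := by ext i; simp

/-- Complete a vector to a vector with sum zero. -/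
noncomputable def liftL (d : ℕ) : (Fin d → ℝ) →ₗ[ℝ] EuclideanSpace ℝ (Fin (d + 1)) where
  toFun y := WithLp.toLp 2 (Fin.snoc (α := fun _ => ℝ) y (-∑ i, y i))
  map_add' x y := by
    ext i
    induction i using Fin.lastCases with
    | last => simp [sum_add_distrib]; ring
    | cast i => simp
  map_smul' c x := by
    ext i
    induction i using Fin.lastCases with
    | last => simp [mul_sum]
    | cast i => simp

lemma hausdorff_pi (d : ℕ) : (μH[(d : ℝ)] : Measure (Fin d → ℝ)) = volume := by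
  have := hausdorffMeasure_pi_real (ι := Fin d)
  rwa [Fintype.card_fin] at this

lemma simplex_ne_zero' (d : ℕ) : μH[(d : ℝ)] (simplex (d + 1)) ≠ 0 := by
  intro h0
  have hL := (LinearMap.toContinuousLinearMap (projL d)).lipschitz
  have h1 := hL.hausdorffMeasure_image_le (d := (d : ℝ)) (by positivity) (simplex (d + 1))
  rw [h0, mul_zero, hausdorff_pi] at h1
  have hsub : Icc (0 : Fin d → ℝ) (fun _ => 1 / ((d : ℝ) + 1)) ⊆
      (LinearMap.toContinuousLinearMap (projL d)) '' simplex (d + 1) := by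
    rintro y ⟨hy0, hy1⟩
    refine ⟨WithLp.toLp 2 (Fin.snoc (α := fun _ => ℝ) y (1 - ∑ i, y i)), ⟨?_, ?_⟩, ?_⟩
    · simp [Fin.sum_univ_castSucc]
    · intro i
      induction i using Fin.lastCases with
      | last =>
        have h2 : ∑ i, y i ≤ ∑ _i : Fin d, 1 / ((d : ℝ) + 1) := sum_le_sum fun i _ => hy1 i
        have h3 : ∑ _i : Fin d, 1 / ((d : ℝ) + 1) ≤ 1 := by
          simp only [sum_const, card_univ, Fintype.card_fin, nsmul_eq_mul]
          rw [mul_one_div, div_le_one (by positivity)]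
          linarith
        simp only [Fin.snoc_last]
        linarith
      | cast i => simpa using hy0 i
    · ext i
      simp [projL]
  have h2 := (measure_mono hsub).trans h1
  rw [Real.volume_Icc_pi, nonpos_iff_eq_zero, prod_eq_zero_iff] at h2
  obtain ⟨i, -, hi⟩ := h2
  rw [ENNReal.ofReal_eq_zero] at hi
  have : (0 : ℝ) < 1 / ((d : ℝ) + 1) := by positivity
  simp only [Pi.zero_apply, sub_zero] at hi
  linarith

lemma simplex_ne_top' (d : ℕ) : μH[(d : ℝ)] (simplex (d + 1)) ≠ ⊤ := by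
  have hL := (LinearMap.toContinuousLinearMap (liftL d)).lipschitz
  have h1 := hL.hausdorffMeasure_image_le (d := (d : ℝ)) (by positivity)
    (Icc (0 : Fin d → ℝ) (fun _ => 1))
  rw [hausdorff_pi, Real.volume_Icc_pi] at h1
  have hsub : simplex (d + 1) ⊆ (EuclideanSpace.single (Fin.last d) (1 : ℝ)) +ᵥ
      ((LinearMap.toContinuousLinearMap (liftL d)) '' Icc (0 : Fin d → ℝ) (fun _ => 1)) := by
    rintro x ⟨hx1, hx0⟩
    refine ⟨_, ⟨fun i => x i.castSucc, ⟨fun i => hx0 _, fun i => ?_⟩, rfl⟩, ?_⟩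
    · rw [← hx1]
      exact single_le_sum (f := fun i => x i) (fun i _ => hx0 i) (Finset.mem_univ _)
    · ext i
      rw [Fin.sum_univ_castSucc] at hx1
      induction i using Fin.lastCases with
      | last => simp [liftL]; linarith
      | cast i => simp [liftL, (Fin.castSucc_lt_last i).ne]
  refine ne_top_of_le_ne_top ?_ (measure_mono hsub)
  rw [hausdorffMeasure_vadd _ (Or.inl (by positivity))]
  refine ne_top_of_le_ne_top ?_ h1
  apply ENNReal.mul_ne_top
  · exact ENNReal.rpow_ne_top_of_nonneg (by positivity) ENNReal.coe_ne_top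
  · simp

lemma simplex_ne_zero (d : ℕ) : μHE[d] (simplex (d + 1)) ≠ 0 := by
  rw [Measure.euclideanHausdorffMeasure_def, Measure.smul_apply, ENNReal.smul_def, smul_eq_mul]
  exact mul_ne_zero
    (by simpa using Measure.addHaarScalarFactor_volume_hausdorffMeasure_ne_zero d)
    (simplex_ne_zero' d)

lemma simplex_ne_top (d : ℕ) : μHE[d] (simplex (d + 1)) ≠ ⊤ := by
  rw [Measure.euclideanHausdorffMeasure_def, Measure.smul_apply, ENNReal.smul_def, smul_eq_mul]
  exact ENNReal.mul_ne_top ENNReal.coe_ne_top (simplex_ne_top' d)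

lemma measure_shift (d : ℕ) (v : Fin (d + 1) → ℝ) (hv : ∀ i, 0 ≤ v i) (hs : ∑ i, v i < 1) :
    μHE[d] {x ∈ simplex (d + 1) | ∀ i, v i ≤ x i} =
      ENNReal.ofReal ((1 - ∑ i, v i) ^ d) * μHE[d] (simplex (d + 1)) := by
  set c : ℝ := 1 - ∑ i, v i with hc
  have hc0 : 0 < c := by linarith
  have hset : {x ∈ simplex (d + 1) | ∀ i, v i ≤ x i} =
      (fun y => (WithLp.toLp 2 v : EuclideanSpace ℝ (Fin (d + 1))) + y) ''
        (c • simplex (d + 1)) := by
    ext x
    constructor
    · rintro ⟨⟨hx1, hx0⟩, hxv⟩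
      refine ⟨x - WithLp.toLp 2 v, ⟨c⁻¹ • (x - WithLp.toLp 2 v), ⟨?_, ?_⟩, ?_⟩, by simp⟩
      · simp only [PiLp.smul_apply, PiLp.sub_apply, smul_eq_mul]
        rw [← mul_sum, sum_sub_distrib, hx1, ← hc]
        exact inv_mul_cancel₀ hc0.ne'
      · intro i
        simp only [PiLp.smul_apply, PiLp.sub_apply, smul_eq_mul]
        exact mul_nonneg (inv_nonneg.2 hc0.le) (by linarith [hxv i])
      · simp only
        rw [smul_inv_smul₀ hc0.ne']
    · rintro ⟨_, ⟨y, ⟨hy1, hy0⟩, rfl⟩, rfl⟩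
      have h1 : ∀ i, 0 ≤ c * y i := fun i => mul_nonneg hc0.le (hy0 i)
      refine ⟨⟨?_, fun i => ?_⟩, fun i => ?_⟩
      · simp only [PiLp.add_apply, PiLp.smul_apply, smul_eq_mul]
        rw [sum_add_distrib, ← mul_sum, hy1]
        linarith
      · simp only [PiLp.add_apply, PiLp.smul_apply, smul_eq_mul]
        linarith [hv i, h1 i]
      · simp only [PiLp.add_apply, PiLp.smul_apply, smul_eq_mul]
        linarith [h1 i]
  rw [hset, (isometry_add_left _).euclideanHausdorffMeasure_image,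
    Measure.euclideanHausdorffMeasure_smul₀ d hc0.ne', ENNReal.smul_def, smul_eq_mul]
  congr 1
  rw [ENNReal.ofReal_pow hc0.le, ENNReal.coe_pow, ← Real.enorm_eq_ofReal hc0.le]
  rfl

end Pool.Agent.MP_0d7d6c_co

end

section

namespace Pool.Agent.MP_0d7d6c_co

open MeasureTheory Finset Filter Topology
open scoped ENNReal

lemma good_realizable {d k : ℕ} (hk : 0 < k) (hd : 4 * k ≤ d + 1) {δ : ℝ} (hδ : 0 < δ)
    (G : SimpleGraph (Fin (d + 2)))
    (hG : ∀ i j : Fin (d + 2), i ≠ j → (k ≤ (i : ℕ) ∨ k ≤ (j : ℕ)) → G.Adj i j)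
    (x : Fin (d + 1) → ℝ)
    (hx : ∀ i : Fin (d + 1), k * (8 * δ / ((d : ℝ) + 1) ^ 2) +
      (if (i : ℕ) < k then 6 * (δ / ((d : ℝ) + 1)) else 0) ≤ x i)
    (hsmall : ∀ j : Fin k, ∃ i : Fin (d + 1), (i : ℕ) / ((d + 1) / k) = j ∧
      x i < δ / ((d : ℝ) + 1)) : Realizable G x := by
  choose p hp1 hp2 using hsmall
  have hτ : 0 < δ / ((d : ℝ) + 1) := by positivity
  have hρ : 0 ≤ 8 * δ / ((d : ℝ) + 1) ^ 2 := by positivity
  have hkρ : 0 ≤ k * (8 * δ / ((d : ℝ) + 1) ^ 2) := by positivity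
  let q : Fin k → Fin (d + 1) := fun j => ⟨j, by have := j.isLt; omega⟩
  have hq : ∀ j, 6 * (δ / ((d : ℝ) + 1)) ≤ x (q j) := by
    intro j
    have := hx (q j)
    rw [if_pos j.isLt] at this
    linarith
  obtain ⟨n, hn⟩ : ∃ n, d + 1 = n + 2 * k := ⟨d + 1 - 2 * k, by omega⟩
  apply realizable_of_realKN G hG
  have h1 := realKN_steps k n univ x p q (8 * δ / ((d : ℝ) + 1) ^ 2) (by simpa using hn)
    (fun a b hab => Fin.ext (by rw [← hp1 a, ← hp1 b, hab]))
    (fun a b hab => Fin.ext (show ((q a : Fin (d + 1)) : ℕ) = q b from congrArg Fin.val hab))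
    (fun i j hij => by have := hp2 i; have := hq j; rw [hij] at *; linarith)
    (fun _ => mem_univ _) (fun _ => mem_univ _) hρ
    (fun i _ => by
      have := hx i
      split_ifs at this <;> linarith)
    (fun j => by
      have h2 := hp2 j
      have h3 : (d : ℝ) + 1 ≤ 2 * n := by
        have : d + 1 ≤ 2 * n := by omega
        exact_mod_cast this
      have h4 : 4 * (δ / ((d : ℝ) + 1)) ≤ 8 * δ / ((d : ℝ) + 1) ^ 2 * ((n : ℝ) + 2) := by
        have h5 : 8 * δ / ((d : ℝ) + 1) ^ 2 * ((n : ℝ) + 2) =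
            4 * (δ / ((d : ℝ) + 1)) * (2 * ((n : ℝ) + 2) / ((d : ℝ) + 1)) := by
          field_simp
          ring
        rw [h5]
        apply le_mul_of_one_le_right (by positivity)
        rw [le_div_iff₀ (by positivity)]
        linarith
      linarith)
    (fun j => by have := hp2 j; have := hq j; linarith)
  rw [← hn] at h1
  exact h1

lemma card_group {M g j : ℕ} (hg : 0 < g) (h : (j + 1) * g ≤ M) :
    (univ.filter (fun i : Fin M => (i : ℕ) / g = j)).card = g := by
  have h1 : (Ico (j * g) ((j + 1) * g)).card = g := by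
    rw [Nat.card_Ico, add_mul, one_mul]; omega
  refine Eq.trans ?_ h1
  apply card_bij (fun (i : Fin M) _ => (i : ℕ))
  · intro i hi
    have := (mem_filter.1 hi).2
    rw [mem_Ico]
    exact ⟨(Nat.le_div_iff_mul_le hg).1 this.ge, (Nat.div_lt_iff_lt_mul hg).1 (by omega)⟩
  · intro a _ b _ hab
    exact Fin.ext hab
  · intro b hb
    rw [mem_Ico] at hb
    refine ⟨⟨b, by omega⟩, ?_, rfl⟩
    simp only [mem_filter, mem_univ, true_and]
    have h2 := (Nat.le_div_iff_mul_le hg).2 hb.1
    have h3 := (Nat.div_lt_iff_lt_mul hg).2 hb.2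
    omega

lemma fraction_le_one {N : ℕ} (G : SimpleGraph (Fin N)) : realizableFraction G ≤ 1 := by
  unfold realizableFraction
  apply ENNReal.div_le_of_le_mul
  rw [one_mul]
  exact measure_mono (Set.sep_subset _ _)

lemma fraction_ge {d k : ℕ} (hk : 0 < k) (hd : 4 * k ≤ d + 1) {δ : ℝ} (hδ : 0 < δ)
    (hδ1 : 14 * k * δ < 1) (G : SimpleGraph (Fin (d + 2)))
    (hG : ∀ i j : Fin (d + 2), i ≠ j → (k ≤ (i : ℕ) ∨ k ≤ (j : ℕ)) → G.Adj i j) :
    ENNReal.ofReal (1 - 14 * k * δ - k * (1 - δ / (2 * k)) ^ d)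
      ≤ realizableFraction G := by
  have hkR : (1 : ℝ) ≤ k := by exact_mod_cast hk
  have hdR : (0 : ℝ) ≤ d := Nat.cast_nonneg d
  have hD : (0 : ℝ) < (d : ℝ) + 1 := by positivity
  set g := (d + 1) / k with hg
  have hg0 : 0 < g := Nat.div_pos (by omega) hk
  have hgk : g * k ≤ d + 1 := Nat.div_mul_le_self _ _
  have hgk2 : d + 1 ≤ 2 * (g * k) := by
    have h1 := Nat.div_add_mod (d + 1) k
    have h2 := Nat.mod_lt (d + 1) hk
    rw [← hg, mul_comm] at h1
    omega
  let v : Fin (d + 1) → ℝ := fun i => k * (8 * δ / ((d : ℝ) + 1) ^ 2) +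
      (if (i : ℕ) < k then 6 * (δ / ((d : ℝ) + 1)) else 0)
  let u : Fin k → Fin (d + 1) → ℝ := fun j i => if (i : ℕ) / g = j then δ / ((d : ℝ) + 1) else 0
  have hv0 : ∀ i, 0 ≤ v i := by
    intro i
    simp only [v]
    split_ifs <;> positivity
  have hu0 : ∀ j i, 0 ≤ u j i := by
    intro j i
    simp only [u]
    split_ifs <;> positivity
  have hvs : ∑ i, v i = 14 * k * δ / ((d : ℝ) + 1) := by
    simp only [v]
    rw [sum_add_distrib, ← sum_filter, sum_const, sum_const, Fin.card_filter_val_lt,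
      min_eq_right (by omega)]
    simp only [card_univ, Fintype.card_fin, nsmul_eq_mul]
    push_cast
    field_simp
    ring
  have hus : ∀ j, ∑ i, u j i = g * (δ / ((d : ℝ) + 1)) := by
    intro j
    simp only [u]
    rw [← sum_filter, sum_const, card_group hg0, nsmul_eq_mul]
    have := j.isLt
    calc ((j : ℕ) + 1) * g ≤ k * g := Nat.mul_le_mul_right _ (by omega)
      _ ≤ d + 1 := by rw [mul_comm]; exact hgk
  have hδ2 : δ < 1 := by nlinarith
  have hvs1 : ∑ i, v i < 1 := by
    rw [hvs, div_lt_one hD]; linarith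
  have hgR : (g : ℝ) * k ≤ d + 1 := by exact_mod_cast hgk
  have hgR2 : (d : ℝ) + 1 ≤ 2 * (g * k) := by exact_mod_cast hgk2
  have hgR0 : (0 : ℝ) ≤ g := Nat.cast_nonneg g
  have hus1 : ∀ j, ∑ i, u j i < 1 := by
    intro j
    rw [hus, ← mul_div_assoc, div_lt_one hD]
    nlinarith
  have hsub : {x ∈ simplex (d + 1) | ∀ i, v i ≤ x i} ⊆
      {x ∈ simplex (d + 1) | Realizable G x} ∪
        ⋃ j : Fin k, {x ∈ simplex (d + 1) | ∀ i, u j i ≤ x i} := by
    rintro x ⟨hxR, hxv⟩
    by_cases h : ∀ j : Fin k, ∃ i : Fin (d + 1), (i : ℕ) / g = j ∧ x i < δ / ((d : ℝ) + 1)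
    · left
      exact ⟨hxR, good_realizable hk hd hδ G hG x hxv h⟩
    · right
      push Not at h
      obtain ⟨j, hj⟩ := h
      refine Set.mem_iUnion.2 ⟨j, hxR, fun i => ?_⟩
      simp only [u]
      split_ifs with hi
      · exact hj i hi
      · exact hxR.2 i
  have h1 := (measure_mono (μ := μHE[d]) hsub).trans
    ((measure_union_le _ _).trans (add_le_add le_rfl (measure_iUnion_fintype_le _ _)))
  simp_rw [measure_shift d v hv0 hvs1, fun j => measure_shift d (u j) (hu0 j) (hus1 j), hus] at h1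
  rw [sum_const, card_univ, Fintype.card_fin, nsmul_eq_mul, hvs] at h1
  change _ ≤ μHE[d] {x ∈ simplex (d + 1) | Realizable G x} / μHE[d] (simplex (d + 1))
  rw [ENNReal.le_div_iff_mul_le (Or.inl (simplex_ne_zero d)) (Or.inl (simplex_ne_top d))]
  set β : ℝ := (1 - δ / (2 * k)) ^ d with hβ
  have hb1 : 0 ≤ 1 - g * (δ / ((d : ℝ) + 1)) := by
    have := hus1 ⟨0, hk⟩
    rw [hus] at this
    linarith
  have hb2 : (1 - g * (δ / ((d : ℝ) + 1))) ^ d ≤ β := by
    apply pow_le_pow_left₀ hb1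
    have h3 : δ / (2 * k) ≤ g * (δ / ((d : ℝ) + 1)) := by
      rw [← mul_div_assoc, div_le_div_iff₀ (by positivity) hD]
      nlinarith
    linarith
  have hβ0 : 0 ≤ β := (pow_nonneg hb1 d).trans hb2
  have ha : 1 - 14 * k * δ ≤ (1 - 14 * k * δ / ((d : ℝ) + 1)) ^ d := by
    have h2 : 14 * k * δ / ((d : ℝ) + 1) < 1 := by rw [← hvs]; exact hvs1
    have h3 := one_add_mul_le_pow (a := -(14 * k * δ / ((d : ℝ) + 1))) (by linarith) d
    have h4 : (d : ℝ) * (14 * k * δ / ((d : ℝ) + 1)) ≤ 14 * k * δ := by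
      rw [← mul_div_assoc, div_le_iff₀ hD]
      have : 0 ≤ 14 * k * δ := by positivity
      nlinarith
    rw [← sub_eq_add_neg] at h3
    linarith
  have h5 : ENNReal.ofReal (1 - 14 * k * δ) * μHE[d] (simplex (d + 1)) ≤
      μHE[d] {x ∈ simplex (d + 1) | Realizable G x} +
        ENNReal.ofReal (k * β) * μHE[d] (simplex (d + 1)) := by
    calc _ ≤ ENNReal.ofReal ((1 - 14 * k * δ / ((d : ℝ) + 1)) ^ d) * μHE[d] (simplex (d + 1)) := by
          gcongr
      _ ≤ _ := h1
      _ ≤ _ := by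
          rw [ENNReal.ofReal_mul (by positivity), ENNReal.ofReal_natCast, mul_assoc]
          gcongr
  rw [ENNReal.ofReal_sub _ (by positivity), ENNReal.sub_mul (fun _ _ => simplex_ne_top d),
    tsub_le_iff_right]
  exact h5

theorem main {N : ℕ} (G : SimpleGraph (Fin N)) :
    Tendsto (fun n => realizableFraction (iterSuspension G n)) atTop (𝓝 1) := by
  rw [tendsto_order]
  refine ⟨fun a ha => ?_, fun a ha => Eventually.of_forall fun n =>
    (fraction_le_one _).trans_lt ha⟩
  obtain ⟨r, hr0, har, hr1⟩ := ENNReal.lt_iff_exists_real_btwn.1 ha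
  rw [ENNReal.ofReal_lt_one] at hr1
  set k := N + 1 with hk
  have hk0 : 0 < k := by omega
  have hkR : (1 : ℝ) ≤ k := by exact_mod_cast hk0
  set δ : ℝ := (1 - r) / (28 * k) with hδ
  have hδ0 : 0 < δ := div_pos (by linarith) (by positivity)
  have hδ1 : 14 * k * δ = (1 - r) / 2 := by rw [hδ]; field_simp; ring
  have hδ2 : δ < 1 := by nlinarith
  have hq0 : 0 ≤ 1 - δ / (2 * k) := by
    have : δ / (2 * k) ≤ 1 := by rw [div_le_one (by positivity)]; linarith
    linarith
  have hq1 : 1 - δ / (2 * k) < 1 := by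
    have : 0 < δ / (2 * k) := by positivity
    linarith
  have hlim : Tendsto (fun d : ℕ => (k : ℝ) * (1 - δ / (2 * k)) ^ d) atTop (𝓝 0) := by
    simpa using (tendsto_pow_atTop_nhds_zero_of_lt_one hq0 hq1).const_mul (k : ℝ)
  obtain ⟨d₀, hd₀⟩ := eventually_atTop.1
    (hlim.eventually (gt_mem_nhds (show (0 : ℝ) < (1 - r) / 2 by linarith)))
  have key : ∀ (M : ℕ) (H : SimpleGraph (Fin M)), d₀ + 4 * k + 2 ≤ M →
      (∀ i j : Fin M, i ≠ j → (k ≤ (i : ℕ) ∨ k ≤ (j : ℕ)) → H.Adj i j) →
      ENNReal.ofReal r ≤ realizableFraction H := by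
    intro M H hM hH
    obtain ⟨d, rfl⟩ : ∃ d, M = d + 2 := ⟨M - 2, by omega⟩
    refine le_trans (ENNReal.ofReal_le_ofReal ?_)
      (fraction_ge hk0 (by omega) hδ0 (by linarith) H hH)
    have h1 := hd₀ d (by omega)
    linarith
  filter_upwards [eventually_ge_atTop (d₀ + 4 * k + 2)] with n hn
  refine har.trans_le (key _ _ (by omega) fun i j hij h => iter_adj G n i j hij ?_)
  omega

end Pool.Agent.MP_0d7d6c_co

end
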